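import Pool.Agent.H937.QS.Stm3

/-!
# Project QS (helper937), task GLUE
-/

set_option autoImplicit false

open scoped Matrix TensorProduct
open Pool.Agent.H937.QS Pool.Agent.W559.Wr

universe u

namespace Pool.Agent.H996.QS.GLUE

/-- Valuation rings are integrally closed. -/
lemma val_root {M : Type u} [Field M] (V : ValuationSubring M) {P : Polynomial M}
    (hP : P.Monic) (hc : ∀ i, P.coeff i ∈ V) {x : M} (hx : P.eval x = 0) : x ∈ V := by
  have h1 : P ∈ Polynomial.lifts (algebraMap V M) :=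
    (Polynomial.lifts_iff_coeff_lifts P).2 (fun i => ⟨⟨P.coeff i, hc i⟩, rfl⟩)
  obtain ⟨Q, hQ, -, hQm⟩ := Polynomial.lifts_and_degree_eq_and_monic h1 hP
  have h2 : IsIntegral V x := ⟨Q, hQm, by rw [Polynomial.eval₂_eq_eval_map, hQ, hx]⟩
  obtain ⟨y, hy⟩ := IsIntegrallyClosed.isIntegral_iff.1 h2
  rw [← hy]
  exact y.2

/-- The coefficients of a product of linear factors. -/
lemma coeff_mem {M : Type u} [Field M] {n : ℕ} (S : Subring M) (f : Fin n → M)
    (hf : ∀ q, f q ∈ S) (m : ℕ) :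
    (∏ q, (Polynomial.X - Polynomial.C (f q))).coeff m ∈ S := by
  have h : ∏ q, (Polynomial.X - Polynomial.C (f q)) =
      (∏ q, (Polynomial.X - Polynomial.C (⟨f q, hf q⟩ : S))).map S.subtype := by
    rw [Polynomial.map_prod]
    refine Finset.prod_congr rfl fun q _ => ?_
    rw [Polynomial.map_sub, Polynomial.map_X, Polynomial.map_C]
    rfl
  rw [h, Polynomial.coeff_map]
  exact SetLike.coe_mem _

section

variable {k K M : Type u} [Field k] [Field K] [Algebra k K] [Field M] [Algebra k M] {n : ℕ}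
  {e : Fin n → K →ₐ[k] M}

lemma evK_apply (B : Subalgebra k K) (b : B) (q : Fin n) : evK e B b q = e q b := rfl

lemma Esym_le (B : Subalgebra k K) (S : Subalgebra k M) (h : ∀ b ∈ B, ∀ q, e q b ∈ S) :
    Esym k (evK e B) ≤ S := by
  refine Algebra.adjoin_le ?_
  rintro x ⟨b, m, rfl⟩
  exact coeff_mem S.toSubring (fun q => evK e B b q) (fun q => h b b.2 q) m

lemma Esym_mono {B B' : Subalgebra k K} (h : B ≤ B') :
    Esym k (evK e B) ≤ Esym k (evK e B') := by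
  refine Algebra.adjoin_mono ?_
  rintro x ⟨b, m, rfl⟩
  exact ⟨⟨b, h b.2⟩, m, rfl⟩

lemma prod_mem_Esym (B : Subalgebra k K) (b : K) (hb : b ∈ B) :
    ∏ q, e q b ∈ Esym k (evK e B) := by
  have h1 : (∏ q, (Polynomial.X - Polynomial.C (evK e B ⟨b, hb⟩ q))).coeff 0 ∈
      Esym k (evK e B) := Algebra.subset_adjoin ⟨⟨b, hb⟩, 0, rfl⟩
  have h2 : (∏ q, (Polynomial.X - Polynomial.C (evK e B ⟨b, hb⟩ q))).coeff 0 =
      (-1) ^ n * ∏ q, e q b := by
    rw [Polynomial.coeff_zero_eq_eval_zero, Polynomial.eval_prod]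
    have h3 : ∀ q : Fin n, (Polynomial.X - Polynomial.C (evK e B ⟨b, hb⟩ q)).eval 0 =
        (-1) * e q b := by
      intro q
      rw [Polynomial.eval_sub, Polynomial.eval_X, Polynomial.eval_C, evK_apply, zero_sub,
        neg_one_mul]
    rw [Finset.prod_congr rfl fun q _ => h3 q, Finset.prod_mul_distrib, Finset.prod_const,
      Finset.card_univ, Fintype.card_fin]
  rw [h2] at h1
  have h3 : ∏ q, e q b = (-1) ^ n * ((-1) ^ n * ∏ q, e q b) := by
    rw [← mul_assoc, ← mul_pow, neg_one_mul, neg_neg, one_pow, one_mul]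
  rw [h3]
  exact mul_mem (pow_mem (neg_mem (one_mem _)) n) h1

/-- Elements of the valuation ring from symmetric functions. -/
lemma root_mem (A : Subalgebra k K) (V : ValuationSubring M)
    (hV : ∀ x ∈ Esym k (evK e A), x ∈ V) (a : K) (ha : a ∈ A) (q : Fin n) : e q a ∈ V := by
  refine val_root V (P := ∏ q, (Polynomial.X - Polynomial.C (evK e A ⟨a, ha⟩ q))) ?_ ?_ ?_
  · exact Polynomial.monic_prod_of_monic _ _ fun q _ => Polynomial.monic_X_sub_C _
  · intro i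
    exact hV _ (Algebra.subset_adjoin ⟨⟨a, ha⟩, i, rfl⟩)
  · rw [Polynomial.eval_prod]
    refine Finset.prod_eq_zero (Finset.mem_univ q) ?_
    rw [Polynomial.eval_sub, Polynomial.eval_X, Polynomial.eval_C, evK_apply, sub_self]

/-- Every element of `K` is a quotient of elements of the chart of a linear form. -/
lemma frac {A : Subalgebra k K} {l : ℕ} {z : Fin (l + 1) → K}
    (htop : IntermediateField.adjoin k ((A : Set K) ∪ Set.range fun j => z j / z 0) = ⊤)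
    {w : K} (hw : w ≠ 0) (x : K) :
    ∃ a ∈ (A ⊔ Algebra.adjoin k (Set.range fun j => z j / w) : Subalgebra k K),
    ∃ b ∈ (A ⊔ Algebra.adjoin k (Set.range fun j => z j / w) : Subalgebra k K),
      b ≠ 0 ∧ x = a / b := by
  obtain ⟨B, hB⟩ : ∃ B : Subalgebra k K,
      B = A ⊔ Algebra.adjoin k (Set.range fun j => z j / w) := ⟨_, rfl⟩
  rw [← hB]
  have hz' : ∀ j, z j / w ∈ B := by
    intro j
    rw [hB]
    exact (le_sup_right : Algebra.adjoin k _ ≤ _) (Algebra.subset_adjoin ⟨j, rfl⟩)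
  have hA : A ≤ B := by
    rw [hB]
    exact le_sup_left
  have h1 : x ∈ IntermediateField.adjoin k (B : Set K) := by
    have h2 : (⊤ : IntermediateField k K) ≤ IntermediateField.adjoin k (B : Set K) := by
      rw [← htop, IntermediateField.adjoin_le_iff]
      rintro y (hy | ⟨j, rfl⟩)
      · exact IntermediateField.subset_adjoin k _ (hA hy)
      · have h3 : z j / z 0 = (z j / w) / (z 0 / w) := by
          rw [div_div_div_cancel_right₀ hw]
        have h4 : (fun j => z j / z 0) j = (z j / w) / (z 0 / w) := h3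
        rw [h4]
        exact div_mem (IntermediateField.subset_adjoin k _ (hz' j))
          (IntermediateField.subset_adjoin k _ (hz' 0))
    exact h2 IntermediateField.mem_top
  rw [IntermediateField.mem_adjoin_iff_div] at h1
  obtain ⟨r, hr, s, hs, hx⟩ := h1
  rw [Algebra.adjoin_eq] at hr hs
  by_cases hs0 : s = 0
  · refine ⟨0, zero_mem _, 1, one_mem _, one_ne_zero, ?_⟩
    rw [hx, hs0, div_zero, zero_div]
  · exact ⟨r, hr, s, hs, hs0, hx⟩

/-- Transition between two charts. -/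
lemma trans {A : Subalgebra k K} {l : ℕ} {z : Fin (l + 1) → K} {w w' : K} (hw' : w' ≠ 0)
    (hu : w' / w ∈ (A ⊔ Algebra.adjoin k (Set.range fun j => z j / w) : Subalgebra k K))
    (b : K) (hb : b ∈ (A ⊔ Algebra.adjoin k (Set.range fun j => z j / w') : Subalgebra k K)) :
    ∃ E : ℕ, b * (w' / w) ^ E ∈
      (A ⊔ Algebra.adjoin k (Set.range fun j => z j / w) : Subalgebra k K) := by
  obtain ⟨B, hB⟩ : ∃ B : Subalgebra k K,
      B = A ⊔ Algebra.adjoin k (Set.range fun j => z j / w) := ⟨_, rfl⟩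
  rw [← hB] at hu ⊢
  let T : Subalgebra k K :=
    { carrier := {x | ∃ E : ℕ, x * (w' / w) ^ E ∈ B}
      mul_mem' := by
        rintro x y ⟨E, hE⟩ ⟨E', hE'⟩
        refine ⟨E + E', ?_⟩
        have h1 : x * y * (w' / w) ^ (E + E') =
            (x * (w' / w) ^ E) * (y * (w' / w) ^ E') := by
          rw [pow_add]
          ring
        rw [h1]
        exact mul_mem hE hE'
      add_mem' := by
        rintro x y ⟨E, hE⟩ ⟨E', hE'⟩
        refine ⟨E + E', ?_⟩
        have h1 : (x + y) * (w' / w) ^ (E + E') =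
            (x * (w' / w) ^ E) * (w' / w) ^ E' + (y * (w' / w) ^ E') * (w' / w) ^ E := by
          rw [pow_add]
          ring
        rw [h1]
        exact add_mem (mul_mem hE (pow_mem hu _)) (mul_mem hE' (pow_mem hu _))
      algebraMap_mem' := by
        intro c
        exact ⟨0, by rw [pow_zero, mul_one]; exact B.algebraMap_mem c⟩ }
  have hT : (A ⊔ Algebra.adjoin k (Set.range fun j => z j / w') : Subalgebra k K) ≤ T := by
    refine sup_le ?_ (Algebra.adjoin_le ?_)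
    · intro x hx
      refine ⟨0, ?_⟩
      rw [pow_zero, mul_one, hB]
      exact (le_sup_left : A ≤ _) hx
    · rintro _ ⟨j, rfl⟩
      refine ⟨1, ?_⟩
      have h1 : (fun j => z j / w') j * (w' / w) ^ 1 = z j / w := by
        rw [pow_one]
        exact div_mul_div_cancel₀ hw'
      rw [h1, hB]
      exact (le_sup_right : Algebra.adjoin k _ ≤ _) (Algebra.subset_adjoin ⟨j, rfl⟩)
  exact hT hb

end

/-- Common exponents. -/
lemma exists_exp {ι : Type} [Finite ι] (p : ι → ℕ → Prop) (h : ∀ i, ∃ E, p i E)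
    (hmono : ∀ i E, p i E → ∀ E', E ≤ E' → p i E') : ∃ E, ∀ i, p i E := by
  choose f hf using h
  obtain ⟨E, hE⟩ := Finite.exists_le f
  exact ⟨E, fun i => hmono i _ (hf i) _ (hE i)⟩

/-- A finite set indexed by `Fin N`. -/
lemma exists_enum {α : Type u} (S : Finset α) : ∃ (N : ℕ) (c : Fin N → α), (∀ i, c i ∈ S) ∧
    ∀ x ∈ S, ∃ i, c i = x :=
  ⟨S.card, fun i => (S.equivFin.symm i : α), fun i => (S.equivFin.symm i).2,
    fun x hx => ⟨S.equivFin ⟨x, hx⟩, by dsimp only; rw [Equiv.symm_apply_apply]⟩⟩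

/-- Generators indexed by `Fin (m + 1)`, the first one is `1`. -/
lemma exists_gen {k M : Type u} [Field k] [Field M] [Algebra k M] {E : Subalgebra k M}
    (h : E.FG) : ∃ (m : ℕ) (g : Fin (m + 1) → M), g 0 = 1 ∧
      Algebra.adjoin k (Set.range g) = E := by
  obtain ⟨S, hS⟩ := h
  obtain ⟨m, c, hc1, hc2⟩ := exists_enum S
  refine ⟨m, Fin.cons 1 c, rfl, ?_⟩
  rw [← hS]
  apply le_antisymm
  · refine Algebra.adjoin_le ?_
    rintro _ ⟨i, rfl⟩
    refine Fin.cases ?_ (fun i => ?_) i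
    · exact one_mem _
    · exact Algebra.subset_adjoin (hc1 i)
  · refine Algebra.adjoin_mono ?_
    intro x hx
    obtain ⟨i, rfl⟩ := hc2 x hx
    exact ⟨i.succ, rfl⟩

theorem t_GLUE (hELL : S_ELL.{u}) (hLSM : S_LSM.{u}) (hESY : S_ESY.{u}) (hFG : S_FG.{u})
    (hFIX : S_FIX.{u}) (hMOD : S_MOD.{u}) : S_GLUE.{u} := by
  intro k K M _ _ _ _ _ _ n e hLD hgen Zp hZp hFam A hA
  obtain ⟨l, z, hz, hsm, htop⟩ := hA
  obtain ⟨L, hL⟩ : ∃ L : IntermediateField k M,
      L = IntermediateField.fixedField (permGrp e (⊤ : Subgroup (Equiv.Perm (Fin n)))) :=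
    ⟨_, rfl⟩
  have hfix := hFIX k K M n e hLD hgen
  rw [← hL] at hfix ⊢
  -- the symmetric functions of `A`
  have hcomap : (Esym k (evK e A)).comap L.val = (⨆ i, A.map (e i)).comap L.val := by
    ext x
    rw [Subalgebra.mem_comap, Subalgebra.mem_comap]
    constructor
    · intro hx
      refine Esym_le A _ (fun b hb q => ?_) hx
      exact (le_iSup (fun i => A.map (e i)) q) ⟨b, hb, rfl⟩
    · intro hx
      exact (hfix A).2.1 _ hx x.2
  rw [← hcomap]
  -- the linear forms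
  obtain ⟨Λ, hΛ⟩ := hELL k K l z hz n
  classical
  obtain ⟨N, cc, hcc1, hcc2⟩ := exists_enum (Λ.filter fun c => ∑ i, c i • z i ≠ 0)
  obtain ⟨w, hw⟩ : ∃ w : Fin N → K, ∀ a, w a = ∑ i, cc a i • z i :=
    ⟨fun a => ∑ i, cc a i • z i, fun _ => rfl⟩
  have hw0 : ∀ a, w a ≠ 0 := by
    intro a
    rw [hw]
    exact (Finset.mem_filter.1 (hcc1 a)).2
  obtain ⟨B, hB⟩ : ∃ B : Fin N → Subalgebra k K, ∀ a, B a =
      A ⊔ Algebra.adjoin k (Set.range fun j => z j / w a) := ⟨_, fun _ => rfl⟩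
  have hAB : ∀ a, A ≤ B a := by
    intro a
    rw [hB]
    exact le_sup_left
  have hzB : ∀ a j, z j / w a ∈ B a := by
    intro a j
    rw [hB]
    exact (le_sup_right : Algebra.adjoin k _ ≤ _) (Algebra.subset_adjoin ⟨j, rfl⟩)
  have hBsm : ∀ a, Algebra.Smooth k (B a) := by
    intro a
    rw [hB, hw]
    exact hLSM k K A l z hz hsm (cc a) (Finset.mem_filter.1 (hcc1 a)).2
  have hBfr : ∀ a, ∀ x : K, ∃ p ∈ B a, ∃ q ∈ B a, q ≠ 0 ∧ x = p / q := by
    intro a x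
    rw [hB]
    exact frac htop (hw0 a) x
  have hex := fun a => hFam (B a) (hBsm a) (hBfr a)
  choose I hIf zz S hF using hex
  have hEfg : ∀ a, (Esym k (evK e (B a))).FG := by
    intro a
    have := hBsm a
    exact hFG k (B a) M n (evK e (B a))
  have hgg := fun a => exists_gen (hEfg a)
  choose m g hg0 hg using hgg
  obtain ⟨ν, hν⟩ : ∃ ν : Fin N → M, ∀ a, ν a = ∏ q, e q (w a) := ⟨_, fun _ => rfl⟩
  have hν0 : ∀ a, ν a ≠ 0 := by
    intro a
    rw [hν, Finset.prod_ne_zero_iff]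
    intro q _
    exact (map_ne_zero (e q)).2 (hw0 a)
  have hνL : ∀ a, ν a ∈ L := by
    intro a
    rw [hν]
    exact (hfix ⊤).1 _ (prod_mem_Esym ⊤ (w a) Algebra.mem_top)
  -- transition
  have hu : ∀ a a', w a' / w a ∈ B a := by
    intro a a'
    rw [hw a', Finset.sum_div]
    refine sum_mem fun i _ => ?_
    rw [smul_div_assoc]
    exact (B a).smul_mem (hzB a i) _
  have hνu : ∀ a a', ∏ q, e q (w a' / w a) = ν a' / ν a := by
    intro a a'
    rw [hν, hν, ← Finset.prod_div_distrib]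
    exact Finset.prod_congr rfl fun q _ => map_div₀ _ _ _
  have hνE : ∀ a a', ν a' / ν a ∈ Esym k (evK e (B a)) := by
    intro a a'
    rw [← hνu]
    exact prod_mem_Esym (B a) _ (hu a a')
  have hune : ∀ a a' q, evK e (B a) ⟨w a' / w a, hu a a'⟩ q ≠ 0 := by
    intro a a' q
    rw [evK_apply]
    exact (map_ne_zero (e q)).2 (div_ne_zero (hw0 a') (hw0 a))
  have hloc : ∀ a a' b', evK e (B a') b' ∈ LocF (evK e (B a)) ⟨w a' / w a, hu a a'⟩ := by
    rintro a a' ⟨b', hb'⟩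
    have h1 := hb'
    rw [hB a'] at h1
    have h2 := hu a a'
    rw [hB a] at h2
    obtain ⟨E, hE⟩ := trans (hw0 a') h2 b' h1
    rw [← hB a] at hE
    refine ⟨⟨_, hE⟩, E, fun q => ?_⟩
    rw [evK_apply, evK_apply, evK_apply, ← map_pow, ← map_mul]
  obtain ⟨C, hC⟩ : ∃ C : ∀ a, I a → Subalgebra k M, ∀ a s, C a s =
      Esym k (evK e (B a)) ⊔ Algebra.adjoin k (Set.range fun i => zz a i / zz a s) :=
    ⟨_, fun _ _ => rfl⟩
  have hEC : ∀ a s, Esym k (evK e (B a)) ≤ C a s := by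
    intro a s
    rw [hC]
    exact le_sup_left
  have hzC : ∀ a s i, zz a i / zz a s ∈ C a s := by
    intro a s i
    rw [hC]
    exact (le_sup_right : Algebra.adjoin k _ ≤ _) (Algebra.subset_adjoin ⟨i, rfl⟩)
  have hgE : ∀ a j, g a j ∈ Esym k (evK e (B a)) := by
    intro a j
    rw [← hg a]
    exact Algebra.subset_adjoin ⟨j, rfl⟩
  have htr1 : ∀ a s, s ∈ S a → zz a s ≠ 0 → ∀ a' i', ∃ E : ℕ,
      (ν a' / ν a) ^ E * (zz a' i' / zz a s) ∈ C a s := by
    intro a s hs hs0 a' i'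
    have h1 : zz a' i' ∈ Zp (LocF (evK e (B a)) ⟨w a' / w a, hu a a'⟩) := by
      refine hZp _ _ ?_ ((hF a').2.1 i')
      rintro _ ⟨b', rfl⟩
      exact hloc a a' b'
    obtain ⟨E, hE⟩ := (hF a).2.2.2.2 s hs hs0 ⟨w a' / w a, hu a a'⟩ (hune a a') _ h1
    refine ⟨E, ?_⟩
    rw [hC, ← hνu]
    exact hE
  have htr2 : ∀ a a' j', ∃ E : ℕ, (ν a' / ν a) ^ E * g a' j' ∈ Esym k (evK e (B a)) := by
    intro a a' j'
    obtain ⟨E, hE⟩ := hESY k (B a) (B a') M n (evK e (B a)) (evK e (B a'))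
      ⟨w a' / w a, hu a a'⟩ (hune a a') (hloc a a') _ (hgE a' j')
    refine ⟨E, ?_⟩
    rw [← hνu]
    exact hE
  have hIf' : ∀ a, Finite (I a) := hIf
  obtain ⟨E, hE⟩ := exists_exp
    (ι := (Σ a : Fin N, I a) × (Σ a' : Fin N, I a' × Fin (m a' + 1)))
    (fun p E => p.1.2 ∈ S p.1.1 → zz p.1.1 p.1.2 ≠ 0 →
      (ν p.2.1 / ν p.1.1) ^ E * g p.2.1 p.2.2.2 * (zz p.2.1 p.2.2.1 / zz p.1.1 p.1.2) ∈
        C p.1.1 p.1.2) (by
      rintro ⟨⟨a, s⟩, ⟨a', i', j'⟩⟩
      by_cases h1 : s ∈ S a ∧ zz a s ≠ 0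
      · obtain ⟨E1, hE1⟩ := htr1 a s h1.1 h1.2 a' i'
        obtain ⟨E2, hE2⟩ := htr2 a a' j'
        refine ⟨E1 + E2, fun _ _ => ?_⟩
        have h2 : (ν a' / ν a) ^ (E1 + E2) * g a' j' * (zz a' i' / zz a s) =
            ((ν a' / ν a) ^ E1 * (zz a' i' / zz a s)) * ((ν a' / ν a) ^ E2 * g a' j') := by
          rw [pow_add]
          ring
        change (ν a' / ν a) ^ (E1 + E2) * g a' j' * (zz a' i' / zz a s) ∈ C a s
        rw [h2]
        exact mul_mem hE1 (hEC a s hE2)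
      · exact ⟨0, fun h2 h3 => absurd ⟨h2, h3⟩ h1⟩) (by
      rintro ⟨⟨a, s⟩, ⟨a', i', j'⟩⟩ E1 hE1 E2 h12 h1 h2
      obtain ⟨d, rfl⟩ := Nat.exists_eq_add_of_le h12
      have h3 := hE1 h1 h2
      have h4 : (ν a' / ν a) ^ (E1 + d) * g a' j' * (zz a' i' / zz a s) =
          (ν a' / ν a) ^ d * ((ν a' / ν a) ^ E1 * g a' j' * (zz a' i' / zz a s)) := by
        rw [pow_add]
        ring
      change (ν a' / ν a) ^ (E1 + d) * g a' j' * (zz a' i' / zz a s) ∈ C a s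
      rw [h4]
      exact mul_mem (pow_mem (hEC a s (hνE a a')) d) h3)
  -- the family
  obtain ⟨ζ, hζ⟩ : ∃ ζ : (Σ a : Fin N, I a × Fin (m a + 1)) → M, ∀ t, ζ t =
      ν t.1 ^ E * g t.1 t.2.2 * zz t.1 t.2.1 := ⟨_, fun _ => rfl⟩
  obtain ⟨J, hJ⟩ : ∃ J : Set (Σ a : Fin N, I a × Fin (m a + 1)), ∀ t, t ∈ J ↔
      (t.2.1 ∈ S t.1 ∧ zz t.1 t.2.1 ≠ 0 ∧ t.2.2 = 0) := ⟨_, fun _ => Iff.rfl⟩
  have hζJ : ∀ t ∈ J, ζ t = ν t.1 ^ E * zz t.1 t.2.1 := by
    intro t ht
    rw [hζ, ((hJ t).1 ht).2.2, hg0, mul_one]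
  have hζ0 : ∀ t ∈ J, ζ t ≠ 0 := by
    intro t ht
    rw [hζJ t ht]
    exact mul_ne_zero (pow_ne_zero _ (hν0 _)) ((hJ t).1 ht).2.1
  have hζC : ∀ t ∈ J, ∀ t', ζ t' / ζ t ∈ C t.1 t.2.1 := by
    intro t ht t'
    have h1 := hE (⟨t.1, t.2.1⟩, ⟨t'.1, t'.2.1, t'.2.2⟩) ((hJ t).1 ht).1 ((hJ t).1 ht).2.1
    have h2 : ζ t' / ζ t = (ν t'.1 / ν t.1) ^ E * g t'.1 t'.2.2 *
        (zz t'.1 t'.2.1 / zz t.1 t.2.1) := by
      rw [hζJ t ht, hζ t', div_pow]
      have h3 := hν0 t.1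
      have h4 := ((hJ t).1 ht).2.1
      field_simp
    rw [h2]
    exact h1
  have hA'E : ∀ a, Esym k (evK e A) ≤ Esym k (evK e (B a)) := fun a => Esym_mono (hAB a)
  have hchart : ∀ t ∈ J, (Esym k (evK e A) ⊔ Algebra.adjoin k (Set.range fun t' =>
      ζ t' / ζ t) : Subalgebra k M) = C t.1 t.2.1 := by
    intro t ht
    have ht' := (hJ t).1 ht
    have hνE0 : ν t.1 ^ E ≠ 0 := pow_ne_zero _ (hν0 _)
    apply le_antisymm
    · refine sup_le ((hA'E t.1).trans (hEC _ _)) (Algebra.adjoin_le ?_)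
      rintro _ ⟨t', rfl⟩
      exact hζC t ht t'
    · rw [hC]
      refine sup_le ?_ (Algebra.adjoin_le ?_)
      · rw [← hg t.1]
        refine Algebra.adjoin_le ?_
        rintro _ ⟨j, rfl⟩
        refine (le_sup_right : Algebra.adjoin k _ ≤ _) (Algebra.subset_adjoin
          ⟨⟨t.1, t.2.1, j⟩, ?_⟩)
        change ζ ⟨t.1, t.2.1, j⟩ / ζ t = g t.1 j
        rw [hζJ t ht, hζ, div_eq_iff (mul_ne_zero hνE0 ht'.2.1)]
        ring
      · rintro _ ⟨i, rfl⟩
        refine (le_sup_right : Algebra.adjoin k _ ≤ _) (Algebra.subset_adjoin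
          ⟨⟨t.1, i, 0⟩, ?_⟩)
        change ζ ⟨t.1, i, 0⟩ / ζ t = zz t.1 i / zz t.1 t.2.1
        rw [hζJ t ht, hζ]
        change ν t.1 ^ E * g t.1 0 * zz t.1 i / (ν t.1 ^ E * zz t.1 t.2.1) = _
        rw [hg0, mul_one, mul_div_mul_left _ _ hνE0]
  refine hMOD k M L (Esym k (evK e A)) (hfix A).1 (Σ a : Fin N, I a × Fin (m a + 1)) ζ J ?_ hζ0
    ?_ ?_ ?_
  · intro t
    rw [hζ]
    exact mul_mem (mul_mem (pow_mem (hνL _) _) ((hfix (B t.1)).1 _ (hgE _ _)))
      ((hfix (B t.1)).1 _ ((hF t.1).1 _))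
  · intro V hV
    have hkV : ∀ c : k, algebraMap k M c ∈ V := fun c => hV _ (Subalgebra.algebraMap_mem _ c)
    let VS : Subalgebra k M := { V.toSubring with algebraMap_mem' := hkV }
    have hVS : ∀ x, x ∈ VS ↔ x ∈ V := fun x => Iff.rfl
    obtain ⟨c, hc, hc0, hcV⟩ := hΛ (fun q => V.comap (e q : K →+* M)) (fun q c => by
      rw [ValuationSubring.mem_comap]
      change e q (algebraMap k K c) ∈ V
      rw [AlgHom.commutes]
      exact hkV c)
    obtain ⟨a, ha⟩ := hcc2 c (Finset.mem_filter.2 ⟨hc, hc0⟩)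
    have hcw : ∑ j, c j • z j = w a := by rw [hw, ha]
    rw [hcw] at hcV
    have hBV : ∀ b ∈ B a, ∀ q, e q b ∈ VS := by
      intro b hb q
      have h1 : B a ≤ VS.comap (e q) := by
        rw [hB]
        refine sup_le ?_ (Algebra.adjoin_le ?_)
        · intro x hx
          exact root_mem A V hV x hx q
        · rintro _ ⟨j, rfl⟩
          have h2 := hcV q j
          rw [ValuationSubring.mem_comap] at h2
          exact h2
      exact h1 hb
    have hEV : Esym k (evK e (B a)) ≤ VS := Esym_le (B a) VS hBV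
    obtain ⟨s, hs, hs0, hsV⟩ := (hF a).2.2.1 V (fun x hx => hEV hx)
    refine ⟨⟨a, s, 0⟩, (hJ _).2 ⟨hs, hs0, rfl⟩, fun t' => ?_⟩
    have h1 := hζC ⟨a, s, 0⟩ ((hJ _).2 ⟨hs, hs0, rfl⟩) t'
    have h2 : C a s ≤ VS := by
      rw [hC]
      refine sup_le hEV (Algebra.adjoin_le ?_)
      rintro _ ⟨i, rfl⟩
      exact hsV i
    exact h2 h1
  · intro t ht
    rw [hchart t ht, hC]
    exact (hF t.1).2.2.2.1 _ ((hJ t).1 ht).1 ((hJ t).1 ht).2.1
  · intro t ht x hx
    rw [hchart t ht]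
    obtain ⟨p, hp, q, hq, hq0, hx'⟩ := (hfix (B t.1)).2.2 (hBfr t.1) x hx
    exact ⟨p, hEC _ _ hp, q, hEC _ _ hq, hq0, hx'⟩

end Pool.Agent.H996.QS.GLUE
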